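import Mathlib

/-! Numerical core: lower bounds for the tail of the pentagonal series divided by
`1`, `1 - q`, `(1 - q)(1 - q^2)` and `(1 - q)(1 - q^2)(1 - q^3)`. -/

namespace Pool.Agent.P.MP_418314_co

/-- Coefficients of `1`. -/
def pa (n : ℤ) : ℤ := if n = 0 then 1 else 0
/-- Coefficients of `1 / (1 - q)`. -/
def pb (n : ℤ) : ℤ := if n < 0 then 0 else 1
/-- Coefficients of `1 / ((1 - q)(1 - q^2))`. -/
def pc (n : ℤ) : ℤ := if n < 0 then 0 else n / 2 + 1
/-- Coefficients of `1 / ((1 - q)(1 - q^2)(1 - q^3))`. -/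
def pd (n : ℤ) : ℤ := if n < 0 then 0 else ((n + 3) * (n + 3) + 6) / 12

/-- The recursion satisfied by the coefficients of the normalised tail times a series with
coefficients `p`. -/
structure TailRec (p : ℤ → ℤ) (s : ℕ → ℤ → ℤ) : Prop where
  neg : ∀ k n, n < 0 → s k n = 0
  step : ∀ (k : ℕ) (n : ℤ), s k n = p n - p (n - (2 * k + 1)) - s (k + 1) (n - (3 * k + 2))

lemma pd_neg {n : ℤ} (h : n < 0) : pd n = 0 := by simp [pd, h]

lemma pd_form (n : ℤ) (h : 0 ≤ n) : ∃ q r : ℤ, n = 6 * q + r ∧ 0 ≤ r ∧ r < 6 ∧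
    pd n = 3 * (q * q) + q * (r + 3) + ((r + 3) * (r + 3) + 6) / 12 := by
  refine ⟨n / 6, n % 6, by omega, by omega, by omega, ?_⟩
  have h1 : ¬ n < 0 := by omega
  simp only [pd, h1, if_false]
  have h2 : (n + 3) * (n + 3) + 6 = ((n % 6 + 3) * (n % 6 + 3) + 6) +
      12 * (3 * (n / 6 * (n / 6)) + n / 6 * (n % 6 + 3)) := by
    have h3 : n = 6 * (n / 6) + n % 6 := by omega
    generalize n / 6 = q at *
    generalize n % 6 = r at *
    subst h3
    ring
  rw [h2, Int.add_mul_ediv_left _ _ (by norm_num)]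
  ring

lemma pd_lo {n : ℤ} (h : 0 ≤ n) : (n + 3) * (n + 3) - 4 ≤ 12 * pd n := by
  obtain ⟨q, r, h1, h2, h3, h4⟩ := pd_form n h
  rw [h4, h1]
  interval_cases r <;> norm_num <;> nlinarith

lemma pd_hi {n : ℤ} (h : 0 ≤ n) : 12 * pd n ≤ (n + 3) * (n + 3) + 3 := by
  obtain ⟨q, r, h1, h2, h3, h4⟩ := pd_form n h
  rw [h4, h1]
  interval_cases r <;> norm_num <;> nlinarith

lemma pb_le_pd (n : ℤ) : pb n ≤ pd n := by
  by_cases h : n < 0
  · simp [pb, pd, h]
  · have := pd_lo (not_lt.mp h)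
    simp only [pb, h, if_false]
    nlinarith

lemma pd_rec (n : ℤ) : pd n = pc n + pd (n - 3) := by
  by_cases h : n < 3
  · by_cases h0 : n < 0
    · simp [pd, pc, h0, show n - 3 < 0 by omega]
    · have : n = 0 ∨ n = 1 ∨ n = 2 := by omega
      rcases this with rfl | rfl | rfl <;> decide
  · obtain ⟨q, r, h1, h2, h3, h4⟩ := pd_form (n - 3) (by omega)
    have h5 : pd n = ((n + 3) * (n + 3) + 6) / 12 := by simp [pd, show ¬ n < 0 by omega]
    have h6 : (n + 3) * (n + 3) + 6 = ((r + 6) * (r + 6) + 6) +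
        12 * (3 * (q * q) + q * (r + 6)) := by
      have : n = 6 * q + r + 3 := by omega
      subst this
      ring
    rw [h4, h5, h6, Int.add_mul_ediv_left _ _ (by norm_num)]
    simp only [pc, show ¬ n < 0 by omega, if_false]
    have h7 : n = 6 * q + r + 3 := by omega
    subst h7
    generalize q * q = w
    interval_cases r <;> norm_num <;> omega

lemma pc_rec (n : ℤ) : pc n = pb n + pc (n - 2) := by
  unfold pc pb
  split_ifs <;> omega

lemma pb_rec (n : ℤ) : pb n = pa n + pb (n - 1) := by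
  unfold pa pb
  split_ifs <;> omega

lemma TailRec.two {p : ℤ → ℤ} {s : ℕ → ℤ → ℤ} (h : TailRec p s) (k : ℕ) (n : ℤ) :
    s k n = p n - p (n - (2 * k + 1)) - p (n - (3 * k + 2)) + p (n - (5 * k + 5))
      + s (k + 2) (n - (6 * k + 7)) := by
  rw [h.step k n, h.step (k + 1)]
  push_cast
  have e1 : n - (3 * (k : ℤ) + 2) - (2 * (k + 1) + 1) = n - (5 * k + 5) := by ring
  have e2 : n - (3 * (k : ℤ) + 2) - (3 * (k + 1) + 2) = n - (6 * k + 7) := by ring
  rw [e1, e2]
  ring

lemma sa_bound {s : ℕ → ℤ → ℤ} (h : TailRec pa s) (N : ℕ) :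
    ∀ (k : ℕ) (n : ℤ), n < N → -1 ≤ s k n ∧ s k n ≤ 1 := by
  induction N with
  | zero => intro k n hn; rw [h.neg k n (by exact_mod_cast hn)]; omega
  | succ N ih =>
    intro k n hn
    rw [h.step k n]
    by_cases h1 : n - (3 * k + 2) < 0
    · rw [h.neg _ _ h1]
      unfold pa
      split_ifs <;> omega
    · have := ih (k + 1) (n - (3 * k + 2)) (by push_cast at hn; omega)
      unfold pa
      split_ifs <;> omega

lemma sb_bound {s : ℕ → ℤ → ℤ} (h : TailRec pb s) (N : ℕ) :
    ∀ (k : ℕ) (n : ℤ), n < N → -1 ≤ s k n ∧ s k n ≤ 1 := by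
  induction N with
  | zero => intro k n hn; rw [h.neg k n (by exact_mod_cast hn)]; omega
  | succ N ih =>
    intro k n hn
    rw [h.step k n]
    by_cases h1 : n - (3 * k + 2) < 0
    · rw [h.neg _ _ h1]
      unfold pb
      split_ifs <;> omega
    · have := ih (k + 1) (n - (3 * k + 2)) (by push_cast at hn; omega)
      unfold pb
      split_ifs <;> omega

lemma phic_bound (k : ℕ) (n : ℤ) :
    -2 ≤ pc n - pc (n - (2 * k + 1)) - pc (n - (3 * k + 2)) + pc (n - (5 * k + 5)) := by
  unfold pc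
  split_ifs <;> omega

lemma sc_bound {s : ℕ → ℤ → ℤ} (h : TailRec pc s) (N : ℕ) :
    ∀ (k : ℕ) (n : ℤ), 0 ≤ n → n < N →
      -194 - 2 * n - 3 * ((16 - (k : ℤ)) * (16 - k)) ≤ 97 * s k n := by
  induction N with
  | zero => intro k n h0 hn; exact absurd hn (by push_cast; omega)
  | succ N ih =>
    intro k n h0 hn
    rw [h.two k n]
    have h2 := phic_bound k n
    by_cases h1 : n - (6 * k + 7) < 0
    · rw [h.neg _ _ h1]
      nlinarith [mul_self_nonneg (16 - (k : ℤ))]
    · have := ih (k + 2) (n - (6 * k + 7)) (by omega) (by push_cast at hn; omega)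
      push_cast at this
      nlinarith

lemma sd_bound {s : ℕ → ℤ → ℤ} (h : TailRec pd s) (N : ℕ) :
    ∀ (k : ℕ) (n : ℤ), 0 ≤ n → n < N →
      (8 * (k : ℤ) - 6) * n - 5 * (k * k) + 57 * k - 220 ≤ 48 * s k n := by
  induction N with
  | zero => intro k n h0 hn; exact absurd hn (by push_cast; omega)
  | succ N ih =>
    intro k n h0 hn
    rw [h.two k n]
    have hk : (0 : ℤ) ≤ k := Int.natCast_nonneg k
    have a0 := pd_lo h0
    by_cases c1 : n - (2 * k + 1) < 0
    · rw [pd_neg c1, pd_neg (show n - (3 * k + 2) < 0 by omega),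
        pd_neg (show n - (5 * k + 5) < 0 by omega), h.neg _ _ (show n - (6 * k + 7) < 0 by omega)]
      nlinarith [mul_self_nonneg (4 * n - 4 * k + 15), mul_self_nonneg (2 * (k : ℤ) - 27)]
    have a1 := pd_hi (not_lt.mp c1)
    by_cases c2 : n - (3 * k + 2) < 0
    · rw [pd_neg c2, pd_neg (show n - (5 * k + 5) < 0 by omega),
        h.neg _ _ (show n - (6 * k + 7) < 0 by omega)]
      nlinarith [mul_nonneg hk (not_lt.mp c1), mul_nonneg hk hk]
    have a2 := pd_hi (not_lt.mp c2)
    by_cases c3 : n - (5 * k + 5) < 0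
    · rw [pd_neg c3, h.neg _ _ (show n - (6 * k + 7) < 0 by omega)]
      have c4 : 0 ≤ 5 * (k : ℤ) + 4 - n := by omega
      nlinarith [mul_nonneg c4 (not_lt.mp c2), mul_nonneg hk hk, mul_nonneg hk c4,
        mul_nonneg hk (not_lt.mp c2), mul_self_nonneg ((k : ℤ) - 1)]
    have a3 := pd_lo (not_lt.mp c3)
    by_cases c4 : n - (6 * k + 7) < 0
    · rw [h.neg _ _ c4]
      have c5 : 0 ≤ 6 * (k : ℤ) + 6 - n := by omega
      nlinarith [mul_nonneg hk c5, mul_self_nonneg ((k : ℤ) - 3)]
    · have := ih (k + 2) (n - (6 * k + 7)) (by omega) (by push_cast at hn; omega)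
      push_cast at this
      nlinarith

/-- A computable form of the recursion. -/
def tf (p : ℤ → ℤ) : ℕ → ℕ → ℤ → ℤ
  | 0, _, _ => 0
  | f + 1, k, n => if n < 0 then 0 else p n - p (n - (2 * k + 1)) - tf p f (k + 1) (n - (3 * k + 2))

lemma TailRec.eq_tf {p : ℤ → ℤ} {s : ℕ → ℤ → ℤ} (h : TailRec p s) (f : ℕ) :
    ∀ (k : ℕ) (n : ℤ), n < f → s k n = tf p f k n := by
  induction f with
  | zero => intro k n hn; rw [h.neg k n (by exact_mod_cast hn)]; rfl
  | succ f ih =>
    intro k n hn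
    unfold tf
    split_ifs with h0
    · exact h.neg k n h0
    · rw [h.step k n, ih (k + 1) _ (by push_cast at hn; omega)]

/-- The finite check. -/
def chk (k N : ℕ) : Bool :=
  (List.range N).all fun n =>
    decide (0 ≤ tf pd N k n) &&
    decide (0 ≤ tf pa N k n + tf pb N k (n - (2 * k + 1)) + tf pc N k (n - (4 * k + 3))
      + tf pd N k (n - (6 * k + 6)))

lemma chk1 : chk 1 720 = true := by decide +kernel
lemma chk2 : chk 2 110 = true := by decide +kernel
lemma chk3 : chk 3 110 = true := by decide +kernel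
lemma chk4 : chk 4 110 = true := by decide +kernel
lemma chk5 : chk 5 110 = true := by decide +kernel

lemma of_chk {sa sb sc sd : ℕ → ℤ → ℤ} (ha : TailRec pa sa) (hb : TailRec pb sb)
    (hc : TailRec pc sc) (hd : TailRec pd sd) {k N : ℕ} (h : chk k N = true) (n : ℤ)
    (h0 : 0 ≤ n) (hn : n < N) :
    0 ≤ sd k n ∧ 0 ≤ sa k n + sb k (n - (2 * k + 1)) + sc k (n - (4 * k + 3))
      + sd k (n - (6 * k + 6)) := by
  obtain ⟨m, rfl⟩ := Int.eq_ofNat_of_zero_le h0
  unfold chk at h
  rw [List.all_eq_true] at h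
  have := h m (List.mem_range.mpr (by exact_mod_cast hn))
  rw [Bool.and_eq_true, decide_eq_true_eq, decide_eq_true_eq] at this
  rw [ha.eq_tf N k _ hn, hb.eq_tf N k _ (by omega), hc.eq_tf N k _ (by omega),
    hd.eq_tf N k _ hn, hd.eq_tf N k _ (by omega)]
  exact this

theorem sd_nonneg {sa sb sc sd : ℕ → ℤ → ℤ} (ha : TailRec pa sa) (hb : TailRec pb sb)
    (hc : TailRec pc sc) (hd : TailRec pd sd) {k : ℕ} (hk : 1 ≤ k) (n : ℤ) : 0 ≤ sd k n := by
  by_cases h0 : n < 0
  · rw [hd.neg k n h0]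
  have h0' := not_lt.mp h0
  have hL := sd_bound hd (n.toNat + 1) k n h0' (by push_cast; omega)
  by_cases h6 : 6 ≤ k
  · have h6' : (6 : ℤ) ≤ k := by exact_mod_cast h6
    by_cases c1 : n - (2 * k + 1) < 0
    · rw [hd.step k n, pd_neg c1, hd.neg _ _ (show n - (3 * k + 2) < 0 by omega)]
      have := pd_lo h0'
      nlinarith
    · have c2 : 0 ≤ n - (2 * k + 1) := not_lt.mp c1
      nlinarith [mul_nonneg c2 (show (0 : ℤ) ≤ k - 6 by omega)]
  · have : k = 1 ∨ k = 2 ∨ k = 3 ∨ k = 4 ∨ k = 5 := by omega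
    rcases this with rfl | rfl | rfl | rfl | rfl
    · by_cases c : n < 720
      · exact (of_chk ha hb hc hd chk1 n h0' (by exact_mod_cast c)).1
      · push_cast at hL; omega
    · by_cases c : n < 110
      · exact (of_chk ha hb hc hd chk2 n h0' (by exact_mod_cast c)).1
      · push_cast at hL; omega
    · by_cases c : n < 110
      · exact (of_chk ha hb hc hd chk3 n h0' (by exact_mod_cast c)).1
      · push_cast at hL; omega
    · by_cases c : n < 110
      · exact (of_chk ha hb hc hd chk4 n h0' (by exact_mod_cast c)).1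
      · push_cast at hL; omega
    · by_cases c : n < 110
      · exact (of_chk ha hb hc hd chk5 n h0' (by exact_mod_cast c)).1
      · push_cast at hL; omega

theorem four_nonneg {sa sb sc sd : ℕ → ℤ → ℤ} (ha : TailRec pa sa) (hb : TailRec pb sb)
    (hc : TailRec pc sc) (hd : TailRec pd sd) {k : ℕ} (hk : 1 ≤ k) (n : ℤ) :
    0 ≤ sa k n + sb k (n - (2 * k + 1)) + sc k (n - (4 * k + 3)) + sd k (n - (6 * k + 6)) := by
  by_cases h0 : n < 0
  · rw [ha.neg k n h0, hb.neg k _ (by omega), hc.neg k _ (by omega), hd.neg k _ (by omega)]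
    norm_num
  have h0' := not_lt.mp h0
  have big : 8 * (k : ℤ) + 7 ≤ n → -1 ≤ sa k n ∧ -1 ≤ sb k (n - (2 * k + 1)) ∧
      -194 - 2 * (n - (4 * k + 3)) - 3 * ((16 - (k : ℤ)) * (16 - k))
        ≤ 97 * sc k (n - (4 * k + 3)) ∧
      (8 * (k : ℤ) - 6) * (n - (6 * k + 6)) - 5 * (k * k) + 57 * k - 220
        ≤ 48 * sd k (n - (6 * k + 6)) := fun hb' =>
    ⟨(sa_bound ha (n.toNat + 1) k n (by push_cast; omega)).1,
      (sb_bound hb (n.toNat + 1) k _ (by push_cast; omega)).1,
      sc_bound hc (n.toNat + 1) k _ (by omega) (by push_cast; omega),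
      sd_bound hd (n.toNat + 1) k _ (by omega) (by push_cast; omega)⟩
  by_cases h6 : 6 ≤ k
  · have h6' : (6 : ℤ) ≤ k := by exact_mod_cast h6
    by_cases c1 : 8 * (k : ℤ) + 7 ≤ n
    · obtain ⟨b1, b2, b3, b4⟩ := big c1
      nlinarith [mul_nonneg (show (0 : ℤ) ≤ n - (8 * k + 7) by omega)
        (show (0 : ℤ) ≤ k - 6 by omega), mul_nonneg (show (0 : ℤ) ≤ k - 6 by omega)
        (show (0 : ℤ) ≤ k - 6 by omega)]
    · rw [ha.two k n, ha.step (k + 2), ha.neg (k + 2 + 1) _ (by push_cast; omega),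
        hb.two k, hb.neg (k + 2) _ (by omega), hc.two k, hc.neg (k + 2) _ (by omega),
        hd.step k, hd.neg (k + 1) _ (by omega),
        pd_neg (show n - (6 * k + 6) - (2 * k + 1) < 0 by omega)]
      have := pb_le_pd (n - (6 * k + 6))
      generalize pd (n - (6 * k + 6)) = w at this
      push_cast
      have e1 : pa (n - (6 * k + 7) - (2 * (k + 2) + 1)) = 0 := by unfold pa; split_ifs <;> omega
      have e2 : 0 ≤ pa (n - (6 * k + 7)) := by unfold pa; split_ifs <;> omega
      have e3 : pa (n - (5 * k + 5)) ≥ 0 := by unfold pa; split_ifs <;> omega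
      have e4 : pc (n - (4 * k + 3) - (5 * k + 5)) = 0 := by unfold pc; split_ifs <;> omega
      have e5 : 0 ≤ pa n := by unfold pa; split_ifs <;> omega
      have e6 : 0 ≤ - pa (n - (2 * k + 1)) - pa (n - (3 * k + 2)) + pb (n - (2 * k + 1))
          - pb (n - (2 * k + 1) - (2 * k + 1)) := by
        unfold pa pb; split_ifs <;> omega
      have e7 : 0 ≤ - pb (n - (2 * k + 1) - (3 * k + 2)) + pc (n - (4 * k + 3))
          - pc (n - (4 * k + 3) - (2 * k + 1)) - pc (n - (4 * k + 3) - (3 * k + 2)) := by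
        unfold pb pc; split_ifs <;> omega
      have e8 : 0 ≤ pb (n - (2 * k + 1) - (5 * k + 5)) := by unfold pb; split_ifs <;> omega
      have e9 : 0 ≤ pb (n - (6 * k + 6)) := by unfold pb; split_ifs <;> omega
      omega
  · have : k = 1 ∨ k = 2 ∨ k = 3 ∨ k = 4 ∨ k = 5 := by omega
    rcases this with rfl | rfl | rfl | rfl | rfl
    · by_cases c : n < 720
      · exact (of_chk ha hb hc hd chk1 n h0' (by exact_mod_cast c)).2
      · have := big (by push_cast; omega)
        push_cast at this ⊢; omega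
    · by_cases c : n < 110
      · exact (of_chk ha hb hc hd chk2 n h0' (by exact_mod_cast c)).2
      · have := big (by push_cast; omega)
        push_cast at this ⊢; omega
    · by_cases c : n < 110
      · exact (of_chk ha hb hc hd chk3 n h0' (by exact_mod_cast c)).2
      · have := big (by push_cast; omega)
        push_cast at this ⊢; omega
    · by_cases c : n < 110
      · exact (of_chk ha hb hc hd chk4 n h0' (by exact_mod_cast c)).2
      · have := big (by push_cast; omega)
        push_cast at this ⊢; omega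
    · by_cases c : n < 110
      · exact (of_chk ha hb hc hd chk5 n h0' (by exact_mod_cast c)).2
      · have := big (by push_cast; omega)
        push_cast at this ⊢; omega

end Pool.Agent.P.MP_418314_co
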