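import Pool.Agent.P.MP_418314_co.Core

/-! Power series side: expansion of `(-q^D; q)_infty` by the number of parts. -/

namespace Pool.Agent.P.MP_418314_co

open PowerSeries

/-- Coefficient at an integer index, zero at negative indices. -/
noncomputable def cz (f : ℤ⟦X⟧) (n : ℤ) : ℤ := if n < 0 then 0 else coeff n.toNat f

lemma cz_neg (f : ℤ⟦X⟧) {n : ℤ} (h : n < 0) : cz f n = 0 := by simp [cz, h]

lemma cz_nat (f : ℤ⟦X⟧) (n : ℕ) : cz f n = coeff n f := by simp [cz]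

lemma cz_add (f g : ℤ⟦X⟧) (n : ℤ) : cz (f + g) n = cz f n + cz g n := by
  unfold cz; split_ifs <;> simp

lemma cz_sub (f g : ℤ⟦X⟧) (n : ℤ) : cz (f - g) n = cz f n - cz g n := by
  unfold cz; split_ifs <;> simp

lemma cz_shift (a : ℕ) (f : ℤ⟦X⟧) (n : ℤ) : cz (X ^ a * f) n = cz f (n - a) := by
  unfold cz
  by_cases h : n < 0
  · simp [h, show n - a < 0 by omega]
  · rw [if_neg h, coeff_X_pow_mul']
    by_cases h1 : n - a < 0
    · rw [if_pos h1, if_neg (by omega)]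
    · rw [if_neg h1, if_pos (by omega)]
      congr 2
      omega

/-- All coefficients are non-negative. -/
def NN (f : ℤ⟦X⟧) : Prop := ∀ n, 0 ≤ coeff n f

lemma NN.mul {f g : ℤ⟦X⟧} (hf : NN f) (hg : NN g) : NN (f * g) := by
  intro n
  rw [coeff_mul]
  exact Finset.sum_nonneg fun x _ => mul_nonneg (hf _) (hg _)

lemma NN.add {f g : ℤ⟦X⟧} (hf : NN f) (hg : NN g) : NN (f + g) := by
  intro n
  rw [map_add]
  exact add_nonneg (hf _) (hg _)

lemma nn_X_pow (a : ℕ) : NN (X ^ a) := by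
  intro n
  rw [coeff_X_pow]
  split_ifs <;> norm_num

lemma nn_one : NN 1 := by simpa using nn_X_pow 0

lemma nn_prod (D N : ℕ) : NN (∏ i ∈ Finset.range N, (1 + X ^ (D + i))) := by
  induction N with
  | zero => simpa using nn_one
  | succ N ih => rw [Finset.prod_range_succ]; exact ih.mul (nn_one.add (nn_X_pow _))

/-- The geometric series `1 / (1 - q^(j+1))`. -/
noncomputable def geo (j : ℕ) : ℤ⟦X⟧ := mk fun n => if (j + 1) ∣ n then 1 else 0

lemma nn_geo (j : ℕ) : NN (geo j) := by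
  intro n
  rw [geo, coeff_mk]
  split_ifs <;> norm_num

lemma geo_eq (j : ℕ) : geo j = 1 + X ^ (j + 1) * geo j := by
  ext n
  rw [map_add, coeff_X_pow_mul', coeff_one, geo, coeff_mk]
  by_cases h : j + 1 ≤ n
  · rw [if_pos h, coeff_mk, if_neg (show ¬ n = 0 by omega), zero_add]
    simp only [Nat.dvd_sub_iff_left h (dvd_refl (j + 1))]
  · rw [if_neg h, add_zero]
    by_cases h0 : n = 0
    · simp [h0]
    · rw [if_neg h0, if_neg]
      intro hd
      exact h (Nat.le_of_dvd (by omega) hd)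

/-- The series `1 / (q; q)_j`. -/
noncomputable def rr : ℕ → ℤ⟦X⟧
  | 0 => 1
  | j + 1 => rr j * geo j

lemma rr_succ (j : ℕ) : rr (j + 1) = rr j + X ^ (j + 1) * rr (j + 1) := by
  have h := geo_eq j
  simp only [rr]
  linear_combination rr j * h

lemma cz_unique (j : ℕ) (p p' : ℤ → ℤ) (hp : ∀ n, cz (rr j) n = p n)
    (hneg : ∀ n, n < 0 → p' n = 0) (hrec : ∀ n, p' n = p n + p' (n - (j + 1 : ℕ))) (n : ℤ) :
    cz (rr (j + 1)) n = p' n := by
  have key : ∀ N : ℕ, ∀ n : ℤ, n < N → cz (rr (j + 1)) n = p' n := by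
    intro N
    induction N with
    | zero => intro n hn; rw [cz_neg _ (by exact_mod_cast hn), hneg n (by exact_mod_cast hn)]
    | succ N ih =>
      intro n hn
      rw [rr_succ, cz_add, cz_shift, hp, ih _ (by push_cast at hn ⊢; omega), ← hrec]
  exact key (n.toNat + 1) n (by push_cast; omega)

lemma cz_rr0 (n : ℤ) : cz (rr 0) n = pa n := by
  unfold cz pa rr
  rw [coeff_one]
  split_ifs <;> omega

lemma cz_rr1 (n : ℤ) : cz (rr 1) n = pb n :=
  cz_unique 0 pa pb cz_rr0 (fun n h => by simp [pb, h]) (fun n => by simpa using pb_rec n) n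

lemma cz_rr2 (n : ℤ) : cz (rr 2) n = pc n :=
  cz_unique 1 pb pc cz_rr1 (fun n h => by simp [pc, h]) (fun n => by simpa using pc_rec n) n

lemma cz_rr3 (n : ℤ) : cz (rr 3) n = pd n :=
  cz_unique 2 pc pd cz_rr2 (fun n h => pd_neg h) (fun n => by simpa using pd_rec n) n

/-- `j (j - 1) / 2`, by recursion. -/
def tr : ℕ → ℕ
  | 0 => 0
  | j + 1 => tr j + j

/-- Partitions into at most `J` distinct parts, each at least `D`. -/
noncomputable def hh (J D : ℕ) : ℤ⟦X⟧ := ∑ j ∈ Finset.range (J + 1), X ^ (j * D + tr j) * rr j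

lemma hh_succ (J D : ℕ) : hh (J + 1) D = hh J D + X ^ ((J + 1) * D + tr (J + 1)) * rr (J + 1) := by
  unfold hh
  rw [Finset.sum_range_succ]

lemma hh_step (J D : ℕ) : hh (J + 1) D = hh (J + 1) (D + 1) + X ^ D * hh J (D + 1) := by
  have key : ∀ j : ℕ, (X : ℤ⟦X⟧) ^ ((j + 1) * D + tr (j + 1)) * rr (j + 1) =
      X ^ ((j + 1) * (D + 1) + tr (j + 1)) * rr (j + 1)
        + X ^ D * (X ^ (j * (D + 1) + tr j) * rr j) := by
    intro j
    have h := rr_succ j
    have e1 : (j + 1) * (D + 1) + tr (j + 1) = ((j + 1) * D + tr (j + 1)) + (j + 1) := by ring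
    have e2 : (X : ℤ⟦X⟧) ^ D * (X ^ (j * (D + 1) + tr j) * rr j) =
        X ^ ((j + 1) * D + tr (j + 1)) * rr j := by
      rw [← mul_assoc, ← pow_add]
      congr 2
      simp only [tr]
      ring
    rw [e2, e1, pow_add (X : ℤ⟦X⟧) ((j + 1) * D + tr (j + 1)) (j + 1)]
    linear_combination X ^ ((j + 1) * D + tr (j + 1)) * h
  induction J with
  | zero =>
    rw [hh_succ, hh_succ, key 0]
    simp [hh, tr, rr]
    ring
  | succ J ih =>
    rw [hh_succ (J + 1) D, hh_succ (J + 1) (D + 1), key (J + 1), ih, hh_succ J (D + 1)]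
    ring

lemma hh_cong (M D : ℕ) (hD : 1 ≤ D) : X ^ M ∣ hh M D - (1 + X ^ D) * hh M (D + 1) := by
  have h1 := hh_step M D
  rw [hh_succ, hh_succ] at h1
  have d1 : (X : ℤ⟦X⟧) ^ M ∣ X ^ ((M + 1) * D + tr (M + 1)) * rr (M + 1) :=
    Dvd.dvd.mul_right (pow_dvd_pow _ (by nlinarith [Nat.zero_le (tr (M + 1))])) _
  have d2 : (X : ℤ⟦X⟧) ^ M ∣ X ^ ((M + 1) * (D + 1) + tr (M + 1)) * rr (M + 1) :=
    Dvd.dvd.mul_right (pow_dvd_pow _ (by nlinarith [Nat.zero_le (tr (M + 1))])) _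
  have e : hh M D - (1 + X ^ D) * hh M (D + 1) =
      X ^ ((M + 1) * (D + 1) + tr (M + 1)) * rr (M + 1)
        - X ^ ((M + 1) * D + tr (M + 1)) * rr (M + 1) := by
    linear_combination h1
  rw [e]
  exact dvd_sub d2 d1

lemma hh_prod (M D : ℕ) (hD : 1 ≤ D) (N : ℕ) :
    X ^ M ∣ hh M D - (∏ i ∈ Finset.range N, (1 + X ^ (D + i))) * hh M (D + N) := by
  induction N with
  | zero => simp
  | succ N ih =>
    have h := hh_cong M (D + N) (by omega)
    have e : hh M D - (∏ i ∈ Finset.range (N + 1), (1 + X ^ (D + i))) * hh M (D + (N + 1)) =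
        (hh M D - (∏ i ∈ Finset.range N, (1 + X ^ (D + i))) * hh M (D + N)) +
        (∏ i ∈ Finset.range N, (1 + X ^ (D + i))) *
          (hh M (D + N) - (1 + X ^ (D + N)) * hh M (D + N + 1)) := by
      rw [Finset.prod_range_succ, ← add_assoc]
      ring
    rw [e]
    exact dvd_add ih (Dvd.dvd.mul_left h _)

lemma hh_one (J D : ℕ) : X ^ D ∣ hh J D - 1 := by
  induction J with
  | zero => simp [hh, tr, rr]
  | succ J ih =>
    rw [hh_succ, add_sub_right_comm]
    exact dvd_add ih (Dvd.dvd.mul_right (pow_dvd_pow _ (by nlinarith [Nat.zero_le (tr (J + 1))])) _)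

lemma prod_cong (M D N : ℕ) (hD : 1 ≤ D) (hN : M ≤ N) :
    X ^ M ∣ (∏ i ∈ Finset.range N, (1 + X ^ (D + i))) - hh M D := by
  have h1 := hh_prod M D hD N
  have h2 : (X : ℤ⟦X⟧) ^ M ∣ hh M (D + N) - 1 :=
    (pow_dvd_pow _ (by omega)).trans (hh_one M (D + N))
  have e : (∏ i ∈ Finset.range N, (1 + X ^ (D + i))) - hh M D =
      -(hh M D - (∏ i ∈ Finset.range N, (1 + X ^ (D + i))) * hh M (D + N))
      - (∏ i ∈ Finset.range N, (1 + X ^ (D + i))) * (hh M (D + N) - 1) := by ring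
  rw [e]
  exact dvd_sub (dvd_neg.mpr h1) (Dvd.dvd.mul_left h2 _)

/-- A family of series with the recursion of the pentagonal tails. -/
structure Tails (g : ℕ → ℕ) (T : ℕ → ℤ⟦X⟧) : Prop where
  gs : ∀ k, g (k + 1) = g k + (3 * k + 2)
  dv : ∀ k, X ^ g k ∣ T k
  st : ∀ k, T k = X ^ g k - X ^ (g k + (2 * k + 1)) - T (k + 1)

lemma cz_of_dvd {a : ℕ} {f : ℤ⟦X⟧} (h : X ^ a ∣ f) {n : ℤ} (hn : n < a) : cz f n = 0 := by
  obtain ⟨u, rfl⟩ := h
  rw [cz_shift, cz_neg _ (by omega)]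

lemma Tails.tailRec {g : ℕ → ℕ} {T : ℕ → ℤ⟦X⟧} (h : Tails g T) (R : ℤ⟦X⟧) (p : ℤ → ℤ)
    (hp : ∀ n, cz R n = p n) : TailRec p fun k n => cz (T k * R) (n + g k) where
  neg k n hn := cz_of_dvd (Dvd.dvd.mul_right (h.dv k) R) (by omega)
  step k n := by
    conv_lhs => rw [h.st k]
    rw [sub_mul, sub_mul, cz_sub, cz_sub, cz_shift, cz_shift, hp, hp, h.gs k]
    push_cast
    congr 2
    · congr 1; ring
    · congr 1; ring
    · ring

lemma Tails.nn_rr {g : ℕ → ℕ} {T : ℕ → ℤ⟦X⟧} (h : Tails g T) {k : ℕ} (hk : 1 ≤ k) (j : ℕ) :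
    NN (T k * rr (j + 3)) := by
  induction j with
  | zero =>
    intro n
    have := sd_nonneg (h.tailRec _ _ cz_rr0) (h.tailRec _ _ cz_rr1) (h.tailRec _ _ cz_rr2)
      (h.tailRec _ _ cz_rr3) hk ((n : ℤ) - g k)
    simpa [cz_nat] using this
  | succ j ih =>
    rw [show j + 1 + 3 = (j + 3) + 1 by ring, rr, ← mul_assoc]
    exact ih.mul (nn_geo _)

lemma Tails.nn_hh {g : ℕ → ℕ} {T : ℕ → ℤ⟦X⟧} (h : Tails g T) {k : ℕ} (hk : 1 ≤ k) (J : ℕ) :
    NN (hh (J + 3) (2 * k + 1) * T k) := by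
  induction J with
  | zero =>
    intro n
    have := four_nonneg (h.tailRec _ _ cz_rr0) (h.tailRec _ _ cz_rr1) (h.tailRec _ _ cz_rr2)
      (h.tailRec _ _ cz_rr3) hk ((n : ℤ) - g k)
    have e : hh (0 + 3) (2 * k + 1) * T k = T k * rr 0 + X ^ (2 * k + 1) * (T k * rr 1)
        + X ^ (4 * k + 3) * (T k * rr 2) + X ^ (6 * k + 6) * (T k * rr 3) := by
      simp only [hh, Finset.sum_range_succ, Finset.sum_range_zero, tr]
      ring
    rw [e, ← cz_nat, cz_add, cz_add, cz_add, cz_shift, cz_shift, cz_shift]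
    push_cast
    rw [show (n : ℤ) - g k + g k = n by ring,
      show (n : ℤ) - g k - (2 * k + 1) + g k = n - (2 * k + 1) by ring,
      show (n : ℤ) - g k - (4 * k + 3) + g k = n - (4 * k + 3) by ring,
      show (n : ℤ) - g k - (6 * k + 6) + g k = n - (6 * k + 6) by ring] at this
    exact this
  | succ J ih =>
    rw [show J + 1 + 3 = (J + 3) + 1 by ring, hh_succ, add_mul]
    refine ih.add ?_
    rw [mul_assoc, mul_comm (rr _), show J + 3 + 1 = (J + 1) + 3 by ring]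
    exact (nn_X_pow _).mul (h.nn_rr hk _)

lemma coeff_cong {M n : ℕ} {f f' : ℤ⟦X⟧} (h : X ^ M ∣ f - f') (hn : n < M) :
    coeff n f = coeff n f' := by
  have := X_pow_dvd_iff.mp h n hn
  rw [map_sub] at this
  exact sub_eq_zero.mp this

theorem Tails.main {g : ℕ → ℕ} {T : ℕ → ℤ⟦X⟧} (h : Tails g T) {k D : ℕ} (hk : 1 ≤ k)
    (hD : 1 ≤ D) (P : ℤ⟦X⟧)
    (hP : ∀ M, X ^ M ∣ P - ∏ i ∈ Finset.range M, (1 + X ^ (D + i))) :
    (∀ n, 0 ≤ coeff n (P * T k)) ↔ D ≤ 2 * k + 1 := by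
  have hP' : ∀ M, X ^ M ∣ P - hh M D := by
    intro M
    have := dvd_add (hP M) (prod_cong M D M hD le_rfl)
    simpa using this
  constructor
  · intro hpos
    by_contra hlt
    have h1 : X ^ D ∣ P - 1 := by
      have := dvd_add (hP' D) (hh_one D D)
      simpa using this
    have h2 : X ^ (g k + D) ∣ P * T k - T k * rr 0 := by
      have := mul_dvd_mul (h.dv k) h1
      rw [← pow_add] at this
      have e : P * T k - T k * rr 0 = T k * (P - 1) := by simp only [rr]; ring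
      rw [e]
      exact this
    have h3 := hpos (g k + (2 * k + 1))
    rw [coeff_cong h2 (by omega), ← cz_nat] at h3
    have h4 := (h.tailRec _ _ cz_rr0).step k (2 * k + 1)
    have h5 := (h.tailRec _ _ cz_rr0).neg (k + 1) (2 * k + 1 - (3 * k + 2)) (by omega)
    rw [h5] at h4
    push_cast at h3
    rw [add_comm, h4] at h3
    unfold pa at h3
    split_ifs at h3 <;> omega
  · intro hle n
    obtain ⟨N, hN⟩ := Nat.exists_eq_add_of_le hle
    have h1 := dvd_add (hP' (n + 3)) (hh_prod (n + 3) D hD N)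
    rw [sub_add_sub_cancel, ← hN] at h1
    have h2 := Dvd.dvd.mul_right h1 (T k)
    rw [sub_mul] at h2
    rw [coeff_cong h2 (by omega), mul_assoc]
    exact (nn_prod D N).mul (h.nn_hh hk n) n

end Pool.Agent.P.MP_418314_co
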